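import Mathlib

/- Prime pairs: the finite model of the sieve weights (no polynomials). -/

set_option autoImplicit false

namespace Pool.Agent.PPf

open Finset
open scoped BigOperators

section Model

variable {ι κ : Type} [Fintype ι] [DecidableEq ι] [Fintype κ] [DecidableEq κ]

/-- The value of the local function number `m` at the root number `l`. -/
noncomputable def vv (p : ℝ) (l m : κ) : ℝ := if l = m then -1 else 1 / (p - 1)

/-- The local mean of a product of local functions, the roots in `J` being removed. -/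
noncomputable def ee (p : ℝ) (J a a' : Finset κ) : ℝ :=
  (∑ l ∈ Jᶜ, (∏ m ∈ a, vv p l m) * ∏ m ∈ a', vv p l m +
    (p - Fintype.card κ) * (1 / (p - 1)) ^ (a.card + a'.card)) / p

/-- The local kernel. -/
noncomputable def ker (p u : ℝ) (J a a' : Finset κ) : ℝ :=
  if a = ∅ ∧ a' = ∅ then 1 else u * ee p J a a'

/-- The ideal local kernel. -/
noncomputable def idk (p : ℝ) (J a a' : Finset κ) : ℝ :=
  ∏ l, if l ∈ J then (if l ∈ a then 1 / (p - 1) else 1) * (if l ∈ a' then 1 / (p - 1) else 1)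
    else if l ∈ a then (if l ∈ a' then 1 / (p - 1) else 0) else (if l ∈ a' then 0 else 1)

/-- The quadratic form with a product kernel. -/
noncomputable def form (c : ι → Finset κ → Finset κ → ℝ) (Y : (ι → Finset κ) → ℝ) : ℝ :=
  ∑ A : ι → Finset κ, ∑ A' : ι → Finset κ, Y A * Y A' * ∏ P, c P (A P) (A' P)

/-- The degree of the coordinate `l`. -/
def dg (w : ι → ℕ) (A : ι → Finset κ) (l : κ) : ℕ := ∑ P with l ∈ A P, w P

/-- The coefficients of the weight. -/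
noncomputable def YY (w : ι → ℕ) (g : κ → ℕ → ℝ) (T : Finset κ) (D : ℕ) (A : ι → Finset κ) : ℝ :=
  if ∑ l ∈ T, dg w A l ≤ D then ∏ l, g l (dg w A l) else 0

/-- A one dimensional moment. -/
noncomputable def mom (p : ι → ℝ) (w : ι → ℕ) (φ : ℕ → ℝ) : ℝ :=
  ∑ s : Finset ι, φ (∑ P ∈ s, w P) * ∏ P ∈ s, 1 / (p P - 1)

/-- The indicator of `[0, t]`. -/
noncomputable def cut (t : ℕ) (j : ℕ) : ℝ := if j ≤ t then 1 else 0

/-- The ideal value of the form. -/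
noncomputable def idv (p : ι → ℝ) (w : ι → ℕ) (g : κ → ℕ → ℝ) (J : Finset κ) : ℝ :=
  ∏ l, if l ∈ J then mom p w (g l) ^ 2 else mom p w fun t => g l t ^ 2

/-- All local factors are close to one. -/
def Adm (p u : ι → ℝ) : Prop := ∀ P, |u P - 1| ≤ 20 / p P

/-- All local factors vanish or are close to one. -/
def Adm0 (p u : ι → ℝ) : Prop := ∀ P, u P = 0 ∨ |u P - 1| ≤ 20 / p P

end Model

/-- The indices at which the weights of the decomposition are modified. -/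
def Jn (n G R Θ i : ℕ) : Prop := n + G < 2 * (i + R) ∧ i + Θ ≤ n

open Classical in
/-- The modified weights of the decomposition. -/
noncomputable def omg (n G R Θ i i' : ℕ) : ℝ :=
  ((n : ℝ) - i) * ((n : ℝ) - i') - (if Jn n G R Θ i then ((n : ℝ) - i) * n / 2 else 0) -
    (if Jn n G R Θ i' then ((n : ℝ) - i') * n / 2 else 0)

/-- The pairs of indices that are estimated by the sieve. -/
def Thin (n G R E' E'' i i' : ℕ) : Prop :=
  n + G < 2 * (max i i' + R) ∧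
    ((n < 2 * min i i' + E' ∧ 2 * min i i' < n + E') ∨ max i i' < min i i' + E'')

/-- D1: the local kernel is close to the ideal one. -/
def SLoc : Prop := ∀ (κ : Type) [Fintype κ] [DecidableEq κ] (p u : ℝ) (J a a' : Finset κ),
  (Fintype.card κ : ℝ) + 4 ≤ p → |u - 1| ≤ 20 / p →
    |ker p u J a a' - idk p J a a'| ≤ (2 * Fintype.card κ + 100) / p ^ 2

/-- D2: perturbation of a product kernel. -/
def SPert : Prop := ∀ (ι κ : Type) [Fintype ι] [DecidableEq ι] [Fintype κ] [DecidableEq κ]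
  (c c' b : ι → Finset κ → Finset κ → ℝ) (ε : ι → ℝ) (Y : (ι → Finset κ) → ℝ),
  (∀ A, 0 ≤ Y A ∧ Y A ≤ 1) → (∀ P a a', |c P a a' - c' P a a'| ≤ ε P) →
  (∀ P a a', 0 ≤ c' P a a' ∧ c' P a a' ≤ b P a a') → (∀ P, c' P ∅ ∅ = 1) →
    |form c Y - form c' Y| ≤
      (∏ P, ∑ a, ∑ a', b P a a') * (Real.exp (4 ^ Fintype.card κ * ∑ P, ε P) - 1) ∧
    form c' Y ≤ form b Y

/-- D3: the ideal form is a product of one dimensional moments. -/
def SIdeal : Prop := ∀ (ι κ : Type) [Fintype ι] [DecidableEq ι] [Fintype κ] [DecidableEq κ]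
  (p : ι → ℝ) (w : ι → ℕ) (g : κ → ℕ → ℝ) (J T : Finset κ) (D : ℕ),
  (∀ P, 1 < p P) → (∀ l t, 0 ≤ g l t) →
    form (fun P => idk (p P) J) (YY w g T D) ≤ idv p w g J ∧
    ∀ a : κ → ℝ, 0 < D →
      (∀ l ∈ T, l ∈ J → mom p w (fun t => g l t * t) ≤ a l * mom p w (g l)) →
      (∀ l ∈ T, l ∉ J → mom p w (fun t => g l t ^ 2 * t) ≤ a l * mom p w fun t => g l t ^ 2) →
      idv p w g J * (1 - 2 * (∑ l ∈ T, a l) / D) ≤ form (fun P => idk (p P) J) (YY w g T D)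

/-- D4: the true form against the ideal form. -/
def SModel : Prop := ∀ (ι κ : Type) [Fintype ι] [DecidableEq ι] [Fintype κ] [DecidableEq κ]
  (p u : ι → ℝ) (J : Finset κ) (Y : (ι → Finset κ) → ℝ),
  (∀ P, (Fintype.card κ : ℝ) + 4 ≤ p P) → (∀ A, 0 ≤ Y A ∧ Y A ≤ 1) →
    (Adm0 p u → form (fun P => ker (p P) (u P) J) Y ≤ form (fun P => idk (p P) J) Y +
      (∏ P, (1 + 1 / (p P - 1))) ^ (Fintype.card κ + J.card) *
        (Real.exp (4 ^ Fintype.card κ * ∑ P, (2 * Fintype.card κ + 100) / p P ^ 2) - 1)) ∧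
    (Adm p u → form (fun P => idk (p P) J) Y ≤ form (fun P => ker (p P) (u P) J) Y +
      (∏ P, (1 + 1 / (p P - 1))) ^ (Fintype.card κ + J.card) *
        (Real.exp (4 ^ Fintype.card κ * ∑ P, (2 * Fintype.card κ + 100) / p P ^ 2) - 1))

/-- D5: the one dimensional profile of Maynard and Tao. -/
def SMay : Prop := ∀ c C ε A : ℝ, 0 < c → c ≤ C → 0 < ε → ε ≤ 1 → 0 < A →
  ∃ (k : ℕ) (τ : ℝ), 2 ≤ k ∧ 0 < τ ∧ τ ≤ c ∧ τ ≤ 1 ∧
    ∀ (ι : Type) [Fintype ι] [DecidableEq ι] (p : ι → ℝ) (w : ι → ℕ) (V : ℝ) (D : ℕ),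
      (∀ P, 1 < p P) → 0 < V → 1 ≤ τ * D →
      (∀ t : ℕ, τ * D ≤ t → t ≤ D →
        c * V * t ≤ mom p w (cut t) ∧ mom p w (cut t) ≤ C * V * t) →
      ∃ g : ℕ → ℝ, (∀ t, 0 ≤ g t ∧ g t ≤ 1) ∧
        τ * V * D ≤ mom p w (fun t => g t ^ 2) ∧ mom p w (fun t => g t ^ 2) ≤ mom p w g ∧
        A * V * D * mom p w (fun t => g t ^ 2) ≤ k * mom p w g ^ 2 ∧
        k * mom p w (fun t => g t ^ 2 * t) ≤ ε * D * mom p w (fun t => g t ^ 2) ∧
        mom p w (fun t => g t * t) ≤ ε * D * mom p w g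

/-- D6: the four values of the form. -/
def SPack : Prop := ∀ c C ε A : ℝ, 0 < c → c ≤ C → 0 < ε → ε ≤ 1 → 0 < A →
  ∃ (k : ℕ) (τ η : ℝ), 2 ≤ k ∧ 0 < τ ∧ τ ≤ 1 ∧ 0 < η ∧
    ∀ (ι : Type) [Fintype ι] [DecidableEq ι] (p : ι → ℝ) (w : ι → ℕ) (V : ℝ) (D : ℕ),
      (∀ P, (k : ℝ) + 5 ≤ p P) → 0 < V → V ≤ 1 → 1 ≤ τ * V * D →
      (∀ t : ℕ, τ * D ≤ t → t ≤ D →
        c * V * t ≤ mom p w (cut t) ∧ mom p w (cut t) ≤ C * V * t) →
      ∏ P, (1 + 1 / (p P - 1)) ≤ C * V * D → ∑ P, 1 / p P ^ 2 ≤ η →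
      ∃ (Y : (ι → Finset (Option (Fin k))) → ℝ) (P₀ r s : ℝ), (∀ A', 0 ≤ Y A' ∧ Y A' ≤ 1) ∧
        (∀ A', Y A' ≠ 0 → ∑ l, dg w A' l ≤ 2 * D) ∧ 1 ≤ P₀ ∧ 1 ≤ r ∧ 1 ≤ s ∧
        A * V * D ≤ k * r ∧ c * V * D ≤ s ∧
        (∀ u, Adm0 p u → form (fun P => ker (p P) (u P) ∅) Y ≤ (1 + ε) * P₀) ∧
        (∀ i u, Adm p u → (1 - ε) * (P₀ * r) ≤ form (fun P => ker (p P) (u P) {some i}) Y) ∧
        (∀ i j u, i ≠ j → Adm0 p u →
          form (fun P => ker (p P) (u P) {some i, some j}) Y ≤ (1 + ε) * (P₀ * r ^ 2)) ∧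
        ∀ u, Adm p u → (1 - ε) * (P₀ * s) ≤ form (fun P => ker (p P) (u P) {none}) Y

open Classical in
/-- F1: the second moment argument. -/
def SFin : Prop := ∀ (Ω : Type) (s : Finset Ω) (k : ℕ) (ρ : Ω → ℝ) (E : Fin k → Ω → Prop)
  (Q : Ω → Prop) (X μ ε δ : ℝ), (∀ f ∈ s, 0 ≤ ρ f) → 0 < X → 0 ≤ ε → ε ≤ 1 → 1 ≤ k * μ →
  ∑ f ∈ s, ρ f ≤ X * (1 + ε) →
  (∀ l, X * μ * (1 - ε) ≤ ∑ f ∈ s with E l f, ρ f) →
  (∀ l l', l ≠ l' → ∑ f ∈ s with E l f ∧ E l' f, ρ f ≤ X * μ ^ 2 * (1 + ε)) →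
  X * δ ≤ ∑ f ∈ s with Q f, ρ f → 4 * ε + 1 / (k * μ) < δ → ∃ f ∈ s, Q f ∧ ∃ l, E l f

open Classical in
/-- W1: the modified weights on the thin set. -/
def SOmega : Prop := ∀ n G R E' E'' Θ : ℕ, 20 * R + 20 * E' ≤ G → G ≤ n → 1 ≤ E'' →
  2 * E'' ≤ Θ → Θ ≤ n →
    (∀ i i', i ≤ n → i' ≤ n → |omg n G R Θ i i'| ≤ 2 * (n : ℝ) ^ 2) ∧
    (∀ i i', i < 2 * R → i' < 2 * R → omg n G R Θ i i' = ((n : ℝ) - i) * ((n : ℝ) - i')) ∧
    (∀ i i', i ≤ n → i' ≤ n → i = n ∨ i' = n → Thin n G R E' E'' i i' → omg n G R Θ i i' = 0) ∧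
    (∀ x y : ℕ → ℝ, ∑ i ∈ range (n + 1), x i = 0 → ∑ i ∈ range (n + 1), y i = 0 →
      ∑ i ∈ range (n + 1), ∑ i' ∈ range (n + 1), omg n G R Θ i i' * (x i * y i') =
        (∑ i ∈ range n, ((n : ℝ) - i) * x i) * ∑ i ∈ range n, ((n : ℝ) - i) * y i) ∧
    ∑ i ∈ range n, ∑ i' ∈ range n, (if Thin n G R E' E'' i i' then
      |omg n G R Θ i i'| / (((n : ℝ) - i) * ((n : ℝ) - i')) else 0) ≤
      10 * ((E' : ℝ) ^ 2 + Θ * E' + (n : ℝ) ^ 2 * E'' / Θ)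

end Pool.Agent.PPf
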