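import Mathlib
import Pool.Agent.MP_f37147_nt.PP.Ker

/- Prime pairs: the ideal form is a product of one dimensional moments. -/

set_option autoImplicit false
set_option linter.unusedSectionVars false

namespace Pool.Agent.PPf

open Finset
open scoped BigOperators

namespace IdealX

variable {ι κ : Type} [Fintype ι] [DecidableEq ι] [Fintype κ] [DecidableEq κ]

/-- The transposition of a family of finite sets. -/
def tr : (ι → Finset κ) ≃ (κ → Finset ι) where
  toFun A l := univ.filter fun P => l ∈ A P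
  invFun S P := univ.filter fun l => P ∈ S l
  left_inv A := by ext P l; simp
  right_inv S := by ext l P; simp

theorem mem_tr (A : ι → Finset κ) (l : κ) (P : ι) : P ∈ tr A l ↔ l ∈ A P := by
  simp [tr]

theorem dg_tr (w : ι → ℕ) (A : ι → Finset κ) (l : κ) : dg w A l = ∑ P ∈ tr A l, w P := rfl

/-- The weight of a set. -/
noncomputable def ew (p : ι → ℝ) (s : Finset ι) : ℝ := ∏ P ∈ s, 1 / (p P - 1)

theorem ew_eq (p : ι → ℝ) (s : Finset ι) :
    ∏ P, (if P ∈ s then 1 / (p P - 1) else 1) = ew p s := by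
  rw [ew, Finset.prod_ite_mem, Finset.univ_inter]

/-- The kernel of one coordinate. -/
noncomputable def kk (p : ι → ℝ) (b : Prop) [Decidable b] (s s' : Finset ι) : ℝ :=
  if b then ew p s * ew p s' else if s = s' then ew p s else 0

theorem kk_eq (p : ι → ℝ) (b : Prop) [Decidable b] (s s' : Finset ι) :
    ∏ P, (if b then (if P ∈ s then 1 / (p P - 1) else 1) * (if P ∈ s' then 1 / (p P - 1) else 1)
      else if P ∈ s then (if P ∈ s' then 1 / (p P - 1) else 0) else (if P ∈ s' then 0 else 1)) =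
      kk p b s s' := by
  unfold kk
  by_cases hb : b
  · simp only [if_pos hb]
    rw [Finset.prod_mul_distrib, ew_eq, ew_eq]
  · simp only [if_neg hb]
    by_cases hs : s = s'
    · subst hs
      rw [if_pos rfl, ← ew_eq]
      refine Finset.prod_congr rfl fun P _ => ?_
      by_cases hP : P ∈ s
      · simp only [if_pos hP]
      · simp only [if_neg hP]
    · rw [if_neg hs]
      have : ∃ P, ¬ (P ∈ s ↔ P ∈ s') := by
        by_contra hc
        push Not at hc
        exact hs (Finset.ext hc)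
      obtain ⟨P, hP⟩ := this
      refine Finset.prod_eq_zero (Finset.mem_univ P) ?_
      by_cases h1 : P ∈ s
      · have h2 : P ∉ s' := fun h => hP ⟨fun _ => h, fun _ => h1⟩
        simp only [if_pos h1, if_neg h2]
      · have h2 : P ∈ s' := by
          by_contra h
          exact hP ⟨fun h' => absurd h' h1, fun h' => absurd h' h⟩
        simp only [if_neg h1, if_pos h2]

theorem prod_idk (p : ι → ℝ) (J : Finset κ) (A A' : ι → Finset κ) :
    ∏ P, idk (p P) J (A P) (A' P) = ∏ l, kk p (l ∈ J) (tr A l) (tr A' l) := by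
  unfold idk
  rw [Finset.prod_comm]
  refine Finset.prod_congr rfl fun l _ => ?_
  rw [← kk_eq]
  refine Finset.prod_congr rfl fun P _ => ?_
  simp only [mem_tr]

theorem one_dim (p : ι → ℝ) (w : ι → ℕ) (b : Prop) [Decidable b] (φ ψ : ℕ → ℝ) :
    ∑ s : Finset ι, ∑ s' : Finset ι, φ (∑ P ∈ s, w P) * ψ (∑ P ∈ s', w P) * kk p b s s' =
      if b then mom p w φ * mom p w ψ else mom p w fun t => φ t * ψ t := by
  unfold kk
  by_cases hb : b
  · simp only [if_pos hb]
    rw [mom, mom, Finset.sum_mul_sum]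
    refine Finset.sum_congr rfl fun s _ => Finset.sum_congr rfl fun s' _ => ?_
    simp only [ew]
    ring
  · simp only [if_neg hb]
    rw [mom]
    refine Finset.sum_congr rfl fun s _ => ?_
    rw [Finset.sum_eq_single s]
    · rw [if_pos rfl, ew]
    · intro s' _ hs
      rw [if_neg (Ne.symm hs), mul_zero]
    · intro h
      exact absurd (Finset.mem_univ s) h

/-- The bilinear form of two product weights. -/
noncomputable def bil (p : ι → ℝ) (w : ι → ℕ) (J : Finset κ) (g g' : κ → ℕ → ℝ) : ℝ :=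
  ∑ A : ι → Finset κ, ∑ A' : ι → Finset κ,
    (∏ l, g l (dg w A l)) * (∏ l, g' l (dg w A' l)) * ∏ P, idk (p P) J (A P) (A' P)

theorem bil_eq (p : ι → ℝ) (w : ι → ℕ) (J : Finset κ) (g g' : κ → ℕ → ℝ) :
    bil p w J g g' =
      ∏ l, if l ∈ J then mom p w (g l) * mom p w (g' l) else mom p w fun t => g l t * g' l t := by
  have h1 : bil p w J g g' = ∑ S : κ → Finset ι, ∑ S' : κ → Finset ι,
      ∏ l, (g l (∑ P ∈ S l, w P) * g' l (∑ P ∈ S' l, w P) * kk p (l ∈ J) (S l) (S' l)) := by
    unfold bil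
    refine Fintype.sum_equiv tr _ _ fun A => Fintype.sum_equiv tr _ _ fun A' => ?_
    rw [prod_idk, Finset.prod_mul_distrib, Finset.prod_mul_distrib]
    simp only [dg_tr]
  rw [h1]
  have h2 : ∀ S : κ → Finset ι, ∑ S' : κ → Finset ι,
      ∏ l, (g l (∑ P ∈ S l, w P) * g' l (∑ P ∈ S' l, w P) * kk p (l ∈ J) (S l) (S' l)) =
      ∏ l, ∑ s' : Finset ι,
        g l (∑ P ∈ S l, w P) * g' l (∑ P ∈ s', w P) * kk p (l ∈ J) (S l) s' := fun S =>
    (Fintype.prod_sum fun l (s' : Finset ι) =>
      g l (∑ P ∈ S l, w P) * g' l (∑ P ∈ s', w P) * kk p (l ∈ J) (S l) s').symm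
  simp only [h2]
  rw [← Fintype.prod_sum fun l (s : Finset ι) => ∑ s' : Finset ι,
    g l (∑ P ∈ s, w P) * g' l (∑ P ∈ s', w P) * kk p (l ∈ J) s s']
  exact Finset.prod_congr rfl fun l _ => one_dim p w (l ∈ J) (g l) (g' l)

theorem idk_nonneg {p : ℝ} (hp : 1 < p) (J a a' : Finset κ) : 0 ≤ idk p J a a' := by
  have h : 0 ≤ 1 / (p - 1) := one_div_nonneg.2 (by linarith)
  unfold idk
  refine Finset.prod_nonneg fun l _ => ?_
  split_ifs <;> positivity

theorem mom_nonneg {p : ι → ℝ} (hp : ∀ P, 1 < p P) (w : ι → ℕ) {φ : ℕ → ℝ} (h : ∀ t, 0 ≤ φ t) :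
    0 ≤ mom p w φ :=
  Finset.sum_nonneg fun _ _ => mul_nonneg (h _)
    (Finset.prod_nonneg fun P _ => one_div_nonneg.2 (by linarith [hp P]))

theorem bil_self (p : ι → ℝ) (w : ι → ℕ) (J : Finset κ) (g : κ → ℕ → ℝ) :
    bil p w J g g = idv p w g J := by
  rw [bil_eq, idv]
  simp only [pow_two]

/-- The weight with one coordinate multiplied by the degree. -/
noncomputable def up (g : κ → ℕ → ℝ) (m : κ) : κ → ℕ → ℝ :=
  fun l t => if l = m then g l t * t else g l t

theorem prod_up (g : κ → ℕ → ℝ) (m : κ) (d : κ → ℕ) :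
    ∏ l, up g m l (d l) = (∏ l, g l (d l)) * d m := by
  have : ∀ l, up g m l (d l) = g l (d l) * if l = m then (d l : ℝ) else 1 := fun l => by
    unfold up
    split_ifs <;> simp
  simp only [this]
  rw [Finset.prod_mul_distrib, Finset.prod_ite_eq']
  simp

theorem prod_le_one_coord {x y : κ → ℝ} (m : κ) (a : ℝ) (hy : ∀ l, 0 ≤ y l)
    (h1 : ∀ l, l ≠ m → x l = y l) (h2 : x m ≤ a * y m) : ∏ l, x l ≤ a * ∏ l, y l := by
  rw [← Finset.mul_prod_erase univ x (Finset.mem_univ m),
    ← Finset.mul_prod_erase univ y (Finset.mem_univ m), ← mul_assoc,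
    Finset.prod_congr rfl fun l hl => h1 l (Finset.ne_of_mem_erase hl)]
  exact mul_le_mul_of_nonneg_right h2 (Finset.prod_nonneg fun l _ => hy l)

theorem bil_up {p : ι → ℝ} (hp : ∀ P, 1 < p P) (w : ι → ℕ) (J : Finset κ) {g : κ → ℕ → ℝ}
    (hg : ∀ l t, 0 ≤ g l t) (m : κ) (a : ℝ)
    (h1 : m ∈ J → mom p w (fun t => g m t * t) ≤ a * mom p w (g m))
    (h2 : m ∉ J → mom p w (fun t => g m t ^ 2 * t) ≤ a * mom p w fun t => g m t ^ 2) :
    bil p w J (up g m) g ≤ a * idv p w g J ∧ bil p w J g (up g m) ≤ a * idv p w g J := by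
  have hy : ∀ l, 0 ≤ if l ∈ J then mom p w (g l) ^ 2 else mom p w fun t => g l t ^ 2 := fun l => by
    split_ifs
    · positivity
    · exact mom_nonneg hp w fun t => sq_nonneg _
  have hu : ∀ l, l ≠ m → up g m l = g l := fun l hl => by
    funext t
    simp only [up, if_neg hl]
  have hm : up g m m = fun t => g m t * t := by
    funext t
    simp only [up, if_true]
  have h0 := mom_nonneg hp w (hg m)
  rw [bil_eq, bil_eq, idv]
  refine ⟨prod_le_one_coord m a hy (fun l hl => ?_) ?_, prod_le_one_coord m a hy (fun l hl => ?_) ?_⟩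
  · simp only [hu l hl, pow_two]
  · rw [hm]
    by_cases hJ : m ∈ J
    · simp only [if_pos hJ]
      nlinarith [mul_le_mul_of_nonneg_right (h1 hJ) h0]
    · simp only [if_neg hJ]
      have e : (fun t : ℕ => g m t * t * g m t) = fun t : ℕ => g m t ^ 2 * t := by
        funext t
        ring
      rw [e]
      exact h2 hJ
  · simp only [hu l hl, pow_two]
  · rw [hm]
    by_cases hJ : m ∈ J
    · simp only [if_pos hJ]
      nlinarith [mul_le_mul_of_nonneg_right (h1 hJ) h0]
    · simp only [if_neg hJ]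
      have e : (fun t : ℕ => g m t * (g m t * t)) = fun t : ℕ => g m t ^ 2 * t := by
        funext t
        ring
      rw [e]
      exact h2 hJ

theorem cut_pair {x y : ℕ} {D : ℕ} (hD : 0 < D) {G G' : ℝ} (hG : 0 ≤ G) (hG' : 0 ≤ G') :
    (if x ≤ D then G else 0) * (if y ≤ D then G' else 0) ≤ G * G' ∧
    G * G' - (G * x * G' + G * (G' * y)) / D ≤
      (if x ≤ D then G else 0) * (if y ≤ D then G' else 0) := by
  have hD' : (0 : ℝ) < D := by exact_mod_cast hD
  have hGG := mul_nonneg hG hG'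
  have hx : (0 : ℝ) ≤ x := Nat.cast_nonneg x
  have hy : (0 : ℝ) ≤ y := Nat.cast_nonneg y
  have key : ∀ z : ℝ, (D : ℝ) ≤ x + y + z * D → 0 ≤ z →
      G * G' - (G * x * G' + G * (G' * y)) / D ≤ G * G' * z := fun z hz _ => by
    rw [sub_le_iff_le_add, ← sub_le_iff_le_add', le_div_iff₀ hD']
    nlinarith [mul_le_mul_of_nonneg_left hz hGG]
  by_cases h1 : x ≤ D
  · by_cases h2 : y ≤ D
    · simp only [if_pos h1, if_pos h2]
      exact ⟨le_rfl, by simpa using key 1 (by linarith) zero_le_one⟩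
    · have h3 : (D : ℝ) ≤ y := by exact_mod_cast (not_le.1 h2).le
      simp only [if_pos h1, if_neg h2, mul_zero]
      exact ⟨hGG, by simpa using key 0 (by linarith) le_rfl⟩
  · have h3 : (D : ℝ) ≤ x := by exact_mod_cast (not_le.1 h1).le
    simp only [if_neg h1, zero_mul]
    exact ⟨hGG, by simpa using key 0 (by linarith) le_rfl⟩

theorem cut_up {x y : ℕ} {D : ℕ} {G G' : ℝ} (hG : 0 ≤ G) (hG' : 0 ≤ G') :
    (if x ≤ D then G else 0) * (if y ≤ D then G' else 0) ≤ G * G' := by
  have hGG := mul_nonneg hG hG'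
  split_ifs <;> simp [hGG]

end IdealX

open IdealX in
theorem sIdeal : SIdeal := by
  intro ι κ _ _ _ _ p w g J T D hp hg
  have hk : ∀ A A' : ι → Finset κ, 0 ≤ ∏ P, idk (p P) J (A P) (A' P) := fun A A' =>
    Finset.prod_nonneg fun P _ => idk_nonneg (hp P) J _ _
  have hG : ∀ A : ι → Finset κ, 0 ≤ ∏ l, g l (dg w A l) := fun A =>
    Finset.prod_nonneg fun l _ => hg l _
  refine ⟨?_, fun a hD h1 h2 => ?_⟩
  · rw [← bil_self]
    exact Finset.sum_le_sum fun A _ => Finset.sum_le_sum fun A' _ =>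
      mul_le_mul_of_nonneg_right (cut_up (hG A) (hG A')) (hk A A')
  · have hD' : (0 : ℝ) < D := by exact_mod_cast hD
    have e1 : ∑ m ∈ T, bil p w J (up g m) g = ∑ A : ι → Finset κ, ∑ A' : ι → Finset κ,
        (∏ l, g l (dg w A l)) * ((∑ l ∈ T, dg w A l : ℕ) : ℝ) * (∏ l, g l (dg w A' l)) *
          ∏ P, idk (p P) J (A P) (A' P) := by
      unfold bil
      rw [Finset.sum_comm]
      refine Finset.sum_congr rfl fun A _ => ?_
      rw [Finset.sum_comm]
      refine Finset.sum_congr rfl fun A' _ => ?_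
      simp only [prod_up]
      rw [← Finset.sum_mul, ← Finset.sum_mul, ← Finset.mul_sum, Nat.cast_sum]
    have e2 : ∑ m ∈ T, bil p w J g (up g m) = ∑ A : ι → Finset κ, ∑ A' : ι → Finset κ,
        (∏ l, g l (dg w A l)) * ((∏ l, g l (dg w A' l)) * ((∑ l ∈ T, dg w A' l : ℕ) : ℝ)) *
          ∏ P, idk (p P) J (A P) (A' P) := by
      unfold bil
      rw [Finset.sum_comm]
      refine Finset.sum_congr rfl fun A _ => ?_
      rw [Finset.sum_comm]
      refine Finset.sum_congr rfl fun A' _ => ?_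
      simp only [prod_up]
      rw [← Finset.sum_mul, ← Finset.mul_sum, ← Finset.mul_sum, Nat.cast_sum]
    have b1 : ∑ m ∈ T, bil p w J (up g m) g ≤ (∑ l ∈ T, a l) * idv p w g J := by
      rw [Finset.sum_mul]
      exact Finset.sum_le_sum fun m hm => (bil_up hp w J hg m (a m) (h1 m hm) (h2 m hm)).1
    have b2 : ∑ m ∈ T, bil p w J g (up g m) ≤ (∑ l ∈ T, a l) * idv p w g J := by
      rw [Finset.sum_mul]
      exact Finset.sum_le_sum fun m hm => (bil_up hp w J hg m (a m) (h1 m hm) (h2 m hm)).2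
    have low : bil p w J g g -
        (∑ m ∈ T, bil p w J (up g m) g + ∑ m ∈ T, bil p w J g (up g m)) / D ≤
        form (fun P => idk (p P) J) (YY w g T D) := by
      rw [e1, e2, ← Finset.sum_add_distrib, Finset.sum_div, bil, ← Finset.sum_sub_distrib]
      refine Finset.sum_le_sum fun A _ => ?_
      rw [← Finset.sum_add_distrib, Finset.sum_div, ← Finset.sum_sub_distrib]
      refine Finset.sum_le_sum fun A' _ => ?_
      have := mul_le_mul_of_nonneg_right
        (cut_pair (x := ∑ l ∈ T, dg w A l) (y := ∑ l ∈ T, dg w A' l) hD (hG A) (hG A')).2 (hk A A')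
      refine le_trans (le_of_eq ?_) this
      ring
    rw [bil_self] at low
    refine le_trans ?_ low
    have : (∑ m ∈ T, bil p w J (up g m) g + ∑ m ∈ T, bil p w J g (up g m)) / D ≤
        2 * (∑ l ∈ T, a l) / D * idv p w g J := by
      rw [div_mul_eq_mul_div]
      exact div_le_div_of_nonneg_right (by linarith) hD'.le
    nlinarith

end Pool.Agent.PPf
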