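import Mathlib
import Pool.Agent.MP_f37147_nt.PP.Ker

/- Prime pairs: the local kernel is close to the ideal one. -/

set_option autoImplicit false
set_option linter.unusedSectionVars false

namespace Pool.Agent.PPf

open Finset
open scoped BigOperators

namespace LocX

theorem fin (K p u E I : ℝ) (hK : 0 ≤ K) (hp : K + 4 ≤ p) (hu : |u - 1| ≤ 20 / p) (h0 : 0 ≤ I)
    (h1 : I ≤ 1 / (p - 1)) (h : |E - I| ≤ K * (1 / (p - 1)) / p + 2 * (1 / (p - 1)) ^ 2) :
    |u * E - I| ≤ (2 * K + 100) / p ^ 2 := by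
  have hp0 : 0 < p := by linarith
  have hp1 : 0 < p - 1 := by linarith
  obtain ⟨q, hq⟩ : ∃ q, q = 1 / p := ⟨_, rfl⟩
  obtain ⟨e, he⟩ : ∃ e, e = 1 / (p - 1) := ⟨_, rfl⟩
  have q0 : 0 < q := by rw [hq]; positivity
  have e0 : 0 < e := by rw [he]; positivity
  have heq : e ≤ 4 / 3 * q := by
    rw [he, hq, mul_one_div, div_le_div_iff₀ hp1 hp0]; linarith
  have hKe : K * e ≤ 1 := by
    rw [he, mul_one_div, div_le_one hp1]; linarith
  have he3 : e ≤ 1 / 3 := by
    rw [he, div_le_div_iff₀ hp1 (by norm_num)]; linarith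
  have r1 : (2 * K + 100) / p ^ 2 = (2 * K + 100) * q ^ 2 := by rw [hq]; field_simp
  have r2 : 20 / p = 20 * q := by rw [hq]; field_simp
  have r3 : K * (1 / (p - 1)) / p = K * e * q := by rw [hq, he]; field_simp
  rw [r3, ← he] at h
  rw [r2] at hu
  rw [← he] at h1
  rw [r1]
  have hE : |E| ≤ 4 * q := by
    have a1 : |E| ≤ |E - I| + |I| := by simpa using abs_add_le (E - I) I
    rw [abs_of_nonneg h0] at a1
    have a2 : K * e * q ≤ q := by nlinarith
    nlinarith
  have a3 : |u * E - I| ≤ |u - 1| * |E| + |E - I| := by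
    rw [← abs_mul]
    have := abs_add_le ((u - 1) * E) (E - I)
    rwa [show (u - 1) * E + (E - I) = u * E - I by ring] at this
  have a4 : |u - 1| * |E| ≤ 20 * q * (4 * q) :=
    mul_le_mul hu hE (abs_nonneg _) (by positivity)
  have a5 : K * e * q ≤ K * (4 / 3 * q) * q :=
    mul_le_mul_of_nonneg_right (mul_le_mul_of_nonneg_left heq hK) q0.le
  have a6 : e ^ 2 ≤ (4 / 3 * q) ^ 2 := pow_le_pow_left₀ e0.le heq 2
  have a7 : 0 ≤ K * q ^ 2 := by positivity
  nlinarith [sq_nonneg q]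

variable {κ : Type} [Fintype κ] [DecidableEq κ]

theorem sum_one (J : Finset κ) (m : κ) (x y : ℝ) :
    ∑ l ∈ Jᶜ, (if l = m then x else y) =
      (Fintype.card κ - J.card) * y + if m ∈ J then 0 else x - y := by
  have h : ∀ l : κ, (if l = m then x else y) = y + if l = m then x - y else 0 := fun l => by
    split_ifs <;> ring
  simp only [h, sum_add_distrib, sum_const, card_compl, nsmul_eq_mul, sum_ite_eq', mem_compl]
  rw [Nat.cast_sub (card_le_univ J)]
  by_cases hm : m ∈ J <;> simp [hm]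

theorem abs_vv (p : ℝ) (hp : 4 ≤ p) (l m : κ) : |vv p l m| ≤ 1 := by
  unfold vv
  split_ifs
  · simp
  · rw [abs_of_nonneg (by have : 0 < p - 1 := by linarith
                          positivity), div_le_one (by linarith)]
    linarith

theorem abs_prod_one (p : ℝ) (hp : 4 ≤ p) (l : κ) (a : Finset κ) : |∏ m ∈ a, vv p l m| ≤ 1 := by
  rw [Finset.abs_prod]
  exact prod_le_one (fun _ _ => abs_nonneg _) fun m _ => abs_vv p hp l m

theorem abs_prod_e (p : ℝ) (hp : 4 ≤ p) (l : κ) (a : Finset κ) (m : κ) (hm : m ∈ a)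
    (hl : l ≠ m) : |∏ m ∈ a, vv p l m| ≤ 1 / (p - 1) := by
  have hp1 : 0 < p - 1 := by linarith
  rw [← mul_prod_erase a _ hm, abs_mul]
  have h1 : |vv p l m| = 1 / (p - 1) := by
    unfold vv; rw [if_neg hl, abs_of_nonneg (by positivity)]
  rw [h1]
  exact mul_le_of_le_one_right (by positivity) (abs_prod_one p hp l _)

theorem two (p u : ℝ) (J a a' : Finset κ) (hp : (Fintype.card κ : ℝ) + 4 ≤ p)
    (hu : |u - 1| ≤ 20 / p) (m m' : κ) (hm : m ∈ a ∪ a') (hm' : m' ∈ a ∪ a') (hne : m ≠ m') :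
    |u * ee p J a a' - idk p J a a'| ≤ (2 * Fintype.card κ + 100) / p ^ 2 := by
  have hK : (0 : ℝ) ≤ Fintype.card κ := Nat.cast_nonneg _
  have hp4 : 4 ≤ p := by linarith
  have hp0 : 0 < p := by linarith
  have hp1 : 0 < p - 1 := by linarith
  have e0 : 0 < 1 / (p - 1) := by positivity
  have e1 : 1 / (p - 1) ≤ 1 := by rw [div_le_one hp1]; linarith
  obtain ⟨f, hf⟩ : ∃ f : κ → ℝ, f = fun l => if l ∈ J then
      (if l ∈ a then 1 / (p - 1) else 1) * (if l ∈ a' then 1 / (p - 1) else 1)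
    else if l ∈ a then (if l ∈ a' then 1 / (p - 1) else 0) else (if l ∈ a' then 0 else 1) :=
    ⟨_, rfl⟩
  have hI : idk p J a a' = ∏ l, f l := by rw [hf]; rfl
  have e2 : 1 / (p - 1) * (1 / (p - 1)) ≤ 1 / (p - 1) := mul_le_of_le_one_right e0.le e1
  have f0 : ∀ l, 0 ≤ f l := fun l => by
    rw [hf]; dsimp only; split_ifs <;> positivity
  have f1 : ∀ l, f l ≤ 1 := fun l => by
    rw [hf]; dsimp only; split_ifs <;> linarith
  have fe : ∀ l ∈ a ∪ a', f l ≤ 1 / (p - 1) := fun l hl => by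
    rw [hf]; dsimp only
    split_ifs with h1 h2 h3 h4 h5 h6 h7 <;> first | linarith | simp_all
  have hI0 : 0 ≤ idk p J a a' := by rw [hI]; exact prod_nonneg fun l _ => f0 l
  have hI2 : idk p J a a' ≤ (1 / (p - 1)) ^ 2 := by
    rw [hI, ← mul_prod_erase univ f (mem_univ m),
      ← mul_prod_erase (univ.erase m) f (mem_erase.2 ⟨hne.symm, mem_univ m'⟩), ← mul_assoc, sq]
    refine (mul_le_of_le_one_right (mul_nonneg (f0 _) (f0 _))
      (prod_le_one (fun l _ => f0 l) fun l _ => f1 l)).trans ?_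
    exact mul_le_mul (fe m hm) (fe m' hm') (f0 _) e0.le
  have hs : 2 ≤ a.card + a'.card :=
    (one_lt_card.2 ⟨m, hm, m', hm', hne⟩).trans_le (card_union_le a a')
  have hterm : ∀ l, |(∏ m ∈ a, vv p l m) * ∏ m ∈ a', vv p l m| ≤ 1 / (p - 1) := by
    intro l
    obtain ⟨n, hn, hl⟩ : ∃ n ∈ a ∪ a', l ≠ n := by
      by_cases h : l = m
      · exact ⟨m', hm', h ▸ hne⟩
      · exact ⟨m, hm, h⟩
    rw [abs_mul]
    rcases mem_union.1 hn with h | h
    · exact (mul_le_of_le_one_right (abs_nonneg _) (abs_prod_one p hp4 l a')).trans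
        (abs_prod_e p hp4 l a n h hl)
    · exact (mul_le_of_le_one_left (abs_nonneg _) (abs_prod_one p hp4 l a)).trans
        (abs_prod_e p hp4 l a' n h hl)
  have hsum : |∑ l ∈ Jᶜ, (∏ m ∈ a, vv p l m) * ∏ m ∈ a', vv p l m| ≤
      Fintype.card κ * (1 / (p - 1)) := by
    refine (abs_sum_le_sum_abs _ _).trans ((sum_le_sum fun l _ => hterm l).trans ?_)
    rw [sum_const, nsmul_eq_mul]
    exact mul_le_mul_of_nonneg_right (by exact_mod_cast card_le_univ _) e0.le
  have hrest : |(p - Fintype.card κ) * (1 / (p - 1)) ^ (a.card + a'.card)| ≤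
      p * (1 / (p - 1)) ^ 2 := by
    rw [abs_of_nonneg (mul_nonneg (by linarith) (by positivity))]
    exact mul_le_mul (by linarith) (pow_le_pow_of_le_one e0.le e1 hs) (by positivity) hp0.le
  have hE : |ee p J a a'| ≤ Fintype.card κ * (1 / (p - 1)) / p + (1 / (p - 1)) ^ 2 := by
    unfold ee
    rw [abs_div, abs_of_pos hp0, div_le_iff₀ hp0, add_mul, div_mul_cancel₀ _ hp0.ne']
    refine (abs_add_le _ _).trans ?_
    linarith
  refine fin _ p u _ _ hK hp hu hI0 (by nlinarith) ?_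
  have := abs_sub (ee p J a a') (idk p J a a')
  rw [abs_of_nonneg hI0] at this
  linarith

theorem fin' (K j p u E I x : ℝ) (hj0 : 0 ≤ j) (hj : j ≤ K) (hp : K + 4 ≤ p)
    (hu : |u - 1| ≤ 20 / p) (h0 : 0 ≤ I) (h1 : I ≤ 1 / (p - 1)) (hx0 : 0 ≤ x)
    (hx : x ≤ 1 / (p - 1)) (h : E = I - j * x / p) :
    |u * E - I| ≤ (2 * K + 100) / p ^ 2 := by
  have hp0 : 0 < p := by linarith
  refine fin K p u E I (by linarith) hp hu h0 h1 ?_
  rw [h, show I - j * x / p - I = -(j * x / p) by ring, abs_neg, abs_of_nonneg (by positivity)]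
  have : j * x / p ≤ K * (1 / (p - 1)) / p :=
    div_le_div_of_nonneg_right (mul_le_mul hj hx hx0 (by linarith)) hp0.le
  nlinarith [sq_nonneg (1 / (p - 1))]

theorem ee_comm (p : ℝ) (J a a' : Finset κ) : ee p J a a' = ee p J a' a := by
  unfold ee
  simp only [mul_comm (∏ m ∈ a, vv p _ m), add_comm a.card]

theorem idk_comm (p : ℝ) (J a a' : Finset κ) : idk p J a a' = idk p J a' a := by
  unfold idk
  refine prod_congr rfl fun l _ => ?_
  split_ifs <;> ring

theorem one (p u : ℝ) (J : Finset κ) (m : κ) (hp : (Fintype.card κ : ℝ) + 4 ≤ p)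
    (hu : |u - 1| ≤ 20 / p) :
    |u * ee p J {m} ∅ - idk p J {m} ∅| ≤ (2 * Fintype.card κ + 100) / p ^ 2 := by
  have hK : (0 : ℝ) ≤ Fintype.card κ := Nat.cast_nonneg _
  have hp0 : 0 < p := by linarith
  have hp1 : 0 < p - 1 := by linarith
  have e0 : 0 < 1 / (p - 1) := by positivity
  have hI : idk p J {m} ∅ = if m ∈ J then 1 / (p - 1) else 0 := by
    unfold idk
    rw [Fintype.prod_eq_single m fun l hl => by simp [hl]]
    simp
  refine fin' _ J.card p u _ _ (1 / (p - 1)) (Nat.cast_nonneg _)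
    (by exact_mod_cast card_le_univ J) hp hu ?_ ?_ e0.le le_rfl ?_
  · rw [hI]; split_ifs <;> linarith
  · rw [hI]; split_ifs <;> linarith
  · rw [hI]
    unfold ee vv
    simp only [prod_singleton, prod_empty, mul_one, card_singleton, card_empty, add_zero, pow_one]
    rw [sum_one]
    split_ifs <;> field_simp <;> ring

theorem both (p u : ℝ) (J : Finset κ) (m : κ) (hp : (Fintype.card κ : ℝ) + 4 ≤ p)
    (hu : |u - 1| ≤ 20 / p) :
    |u * ee p J {m} {m} - idk p J {m} {m}| ≤ (2 * Fintype.card κ + 100) / p ^ 2 := by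
  have hK : (0 : ℝ) ≤ Fintype.card κ := Nat.cast_nonneg _
  have hp0 : 0 < p := by linarith
  have hp1 : 0 < p - 1 := by linarith
  have e0 : 0 < 1 / (p - 1) := by positivity
  have e1 : 1 / (p - 1) ≤ 1 := by rw [div_le_one hp1]; linarith
  have e2 : (1 / (p - 1)) ^ 2 ≤ 1 / (p - 1) := by nlinarith
  have hI : idk p J {m} {m} = if m ∈ J then (1 / (p - 1)) ^ 2 else 1 / (p - 1) := by
    unfold idk
    rw [Fintype.prod_eq_single m fun l hl => by simp [hl]]
    simp [sq]
  refine fin' _ J.card p u _ _ ((1 / (p - 1)) ^ 2) (Nat.cast_nonneg _)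
    (by exact_mod_cast card_le_univ J) hp hu ?_ ?_ (by positivity) e2 ?_
  · rw [hI]; split_ifs <;> positivity
  · rw [hI]; split_ifs <;> linarith
  · rw [hI]
    have hv : ∀ l, vv p l m * vv p l m = if l = m then 1 else (1 / (p - 1)) ^ 2 := fun l => by
      unfold vv; split_ifs <;> ring
    unfold ee
    simp only [prod_singleton, card_singleton, hv]
    rw [sum_one, one_add_one_eq_two]
    split_ifs <;> field_simp <;> ring

end LocX

theorem sLoc : SLoc := by
  intro κ _ _ p u J a a' hp hu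
  unfold ker
  by_cases h0 : a = ∅ ∧ a' = ∅
  · rw [if_pos h0, h0.1, h0.2]
    have : idk p J (∅ : Finset κ) ∅ = 1 := by simp [idk]
    rw [this, sub_self, abs_zero]
    positivity
  rw [if_neg h0]
  by_cases h2 : ∃ m ∈ a ∪ a', ∃ m' ∈ a ∪ a', m ≠ m'
  · obtain ⟨m, hm, m', hm', hne⟩ := h2
    exact LocX.two p u J a a' hp hu m m' hm hm' hne
  push Not at h2
  have hne : (a ∪ a').Nonempty := by
    rw [nonempty_iff_ne_empty, Ne, union_eq_empty]; exact h0
  obtain ⟨m, hm⟩ := hne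
  have ha : a ⊆ {m} := fun l hl => mem_singleton.2 (h2 l (mem_union_left _ hl) m hm)
  have ha' : a' ⊆ {m} := fun l hl => mem_singleton.2 (h2 l (mem_union_right _ hl) m hm)
  rcases subset_singleton_iff.1 ha with h | h <;> rcases subset_singleton_iff.1 ha' with h' | h'
  · exact absurd ⟨h, h'⟩ h0
  · rw [h, h', LocX.ee_comm, LocX.idk_comm]; exact LocX.one p u J m hp hu
  · rw [h, h']; exact LocX.one p u J m hp hu
  · rw [h, h']; exact LocX.both p u J m hp hu

end Pool.Agent.PPf
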