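import Mathlib
import Pool.Agent.MP_f37147_nt.PP.Ker

/- Prime pairs: the one dimensional profile. -/

set_option autoImplicit false
set_option linter.unusedSectionVars false

namespace Pool.Agent.PPf

open Finset
open scoped BigOperators

namespace MayX

/-- A combination of cuts. -/
noncomputable def cb (a : ℕ → ℝ) (S t0 t : ℕ) : ℝ := ∑ j ∈ range S, a j * cut (t0 * 2 ^ j) t

theorem cut_nn (a t : ℕ) : 0 ≤ cut a t := by
  unfold cut
  split_ifs <;> norm_num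

theorem cb_nn {a : ℕ → ℝ} (ha : ∀ j, 0 ≤ a j) (S t0 t : ℕ) : 0 ≤ cb a S t0 t :=
  sum_nonneg fun j _ => mul_nonneg (ha j) (cut_nn _ _)

theorem cb_succ (x y : ℝ) (S t0 t : ℕ) : cb (fun j => x * y ^ j) (S + 1) t0 t =
    x * cut t0 t + y * cb (fun j => x * y ^ j) S (t0 * 2) t := by
  unfold cb
  rw [sum_range_succ', mul_sum, add_comm]
  simp only [pow_zero, mul_one, pow_succ' 2, ← mul_assoc t0, add_right_inj]
  exact sum_congr rfl fun j _ => by ring

theorem cb_le (S : ℕ) : ∀ t0 t : ℕ, cb (fun j => 1 / 2 * (1 / 2) ^ j) S t0 t ≤ 1 ∧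
    cb (fun j => 1 / 2 * (1 / 2) ^ j) S t0 t ^ 2 ≤ cb (fun j => 1 * (1 / 4) ^ j) S t0 t := by
  induction S with
  | zero => intro t0 t; simp [cb]
  | succ S ih =>
    intro t0 t
    obtain ⟨h1, h2⟩ := ih (t0 * 2) t
    have h3 := cb_nn (a := fun j => 1 / 2 * (1 / 2) ^ j) (fun j => by positivity) S (t0 * 2) t
    rw [cb_succ, cb_succ]
    unfold cut
    split_ifs
    · exact ⟨by linarith, by nlinarith⟩
    · exact ⟨by linarith, by nlinarith⟩

theorem cb_mul {a : ℕ → ℝ} (ha : ∀ j, 0 ≤ a j) (S t0 t : ℕ) :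
    cb a S t0 t * t ≤ cb (fun j => a j * (t0 * 2 ^ j)) S t0 t := by
  unfold cb
  rw [sum_mul]
  refine sum_le_sum fun j _ => ?_
  rw [mul_assoc, mul_assoc]
  refine mul_le_mul_of_nonneg_left ?_ (ha j)
  unfold cut
  split_ifs with h
  · rw [one_mul, mul_one]
    exact_mod_cast h
  · simp

variable {ι : Type} [Fintype ι] [DecidableEq ι] {p : ι → ℝ} (w : ι → ℕ)

theorem mom_mono (hp : ∀ P, 1 < p P) {φ ψ : ℕ → ℝ} (h : ∀ t, φ t ≤ ψ t) :
    mom p w φ ≤ mom p w ψ :=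
  sum_le_sum fun _ _ => mul_le_mul_of_nonneg_right (h _)
    (prod_nonneg fun P _ => one_div_nonneg.2 (sub_pos.2 (hp P)).le)

theorem mom_cb (a : ℕ → ℝ) (S t0 : ℕ) :
    mom p w (cb a S t0) = ∑ j ∈ range S, a j * mom p w (cut (t0 * 2 ^ j)) := by
  simp only [mom, cb, sum_mul, mul_sum, mul_assoc]
  exact sum_comm

theorem geo (S : ℕ) : ∑ j ∈ range S, (1 / 2 : ℝ) ^ j ≤ 2 ∧ ∑ j ∈ range S, (2 : ℝ) ^ j ≤ 2 ^ S := by
  refine ⟨sum_geometric_two_le S, ?_⟩
  induction S with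
  | zero => simp
  | succ S ih => rw [sum_range_succ, pow_succ]; linarith

theorem moms (hp : ∀ P, 1 < p P) {S t0 : ℕ} (hS : 1 ≤ S) {a b : ℝ} (hb : 0 ≤ b)
    (h : ∀ j < S, a * (t0 * 2 ^ j) ≤ mom p w (cut (t0 * 2 ^ j)) ∧
      mom p w (cut (t0 * 2 ^ j)) ≤ b * (t0 * 2 ^ j)) :
    ∃ g : ℕ → ℝ, (∀ t, 0 ≤ g t ∧ g t ≤ 1) ∧ a * t0 / 4 ≤ mom p w (fun t => g t ^ 2) ∧
      mom p w (fun t => g t ^ 2) ≤ 2 * b * t0 ∧ a * t0 * S / 2 ≤ mom p w g ∧
      mom p w (fun t => g t ^ 2 * t) ≤ S * b * t0 ^ 2 ∧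
      mom p w (fun t => g t * t) ≤ b * t0 ^ 2 * 2 ^ S / 2 := by
  have h0 := cb_nn (a := fun j => 1 / 2 * (1 / 2) ^ j) (fun j => by positivity) S t0
  have e1 : ∀ j : ℕ, (1 / 2 : ℝ) ^ j * 2 ^ j = 1 := fun j => by rw [← mul_pow]; norm_num
  have e2 : ∀ j : ℕ, (1 / 4 : ℝ) ^ j * 2 ^ j = (1 / 2) ^ j := fun j => by rw [← mul_pow]; norm_num
  have up : ∀ c : ℕ → ℝ, (∀ j, 0 ≤ c j) →
      mom p w (cb c S t0) ≤ b * t0 * ∑ j ∈ range S, c j * 2 ^ j := fun c hc => by
    rw [mom_cb, mul_sum]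
    exact sum_le_sum fun j hj =>
      (mul_le_mul_of_nonneg_left (h j (mem_range.1 hj)).2 (hc j)).trans_eq (by ring)
  have hbt : 0 ≤ b * t0 := by positivity
  refine ⟨_, fun t => ⟨h0 t, (cb_le S t0 t).1⟩, ?_, ?_, ?_, ?_, ?_⟩
  · refine le_trans ?_ (mom_mono w hp (φ := cb (fun _ => 1 / 4) 1 t0) fun t => ?_)
    · have := (h 0 hS).1
      rw [mom_cb, sum_range_one]
      simp only [pow_zero, mul_one] at this ⊢
      linarith
    · obtain ⟨S, rfl⟩ := Nat.exists_eq_add_of_le' hS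
      have h3 := cb_nn (a := fun j => 1 / 2 * (1 / 2) ^ j) (fun j => by positivity) S (t0 * 2) t
      rw [cb_succ, cb, sum_range_one, pow_zero, mul_one]
      unfold cut
      split_ifs
      · nlinarith
      · nlinarith
  · refine ((mom_mono w hp fun t => (cb_le S t0 t).2).trans (up _ fun j => by positivity)).trans ?_
    simp only [one_mul, e2]
    nlinarith [(geo S).1]
  · rw [mom_cb]
    refine le_trans (le_of_eq ?_) (sum_le_sum fun j hj =>
      mul_le_mul_of_nonneg_left (h j (mem_range.1 hj)).1 (by positivity))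
    rw [sum_congr rfl fun j _ => show 1 / 2 * (1 / 2 : ℝ) ^ j * (a * (t0 * 2 ^ j)) = a * t0 / 2 by
      linear_combination a * t0 / 2 * e1 j, sum_const, card_range, nsmul_eq_mul]
    ring
  · refine ((mom_mono w hp fun t => (mul_le_mul_of_nonneg_right (cb_le S t0 t).2
      t.cast_nonneg).trans (cb_mul (fun j => by positivity) S t0 t)).trans
      (up _ fun j => by positivity)).trans (le_of_eq ?_)
    rw [sum_congr rfl fun j _ => show 1 * (1 / 4 : ℝ) ^ j * (t0 * 2 ^ j) * 2 ^ j = t0 by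
      linear_combination t0 * 2 ^ j * e2 j + t0 * e1 j, sum_const, card_range, nsmul_eq_mul]
    ring
  · refine ((mom_mono w hp fun t => cb_mul (a := fun j => 1 / 2 * (1 / 2) ^ j)
      (fun j => by positivity) S t0 t).trans (up _ fun j => by positivity)).trans ?_
    rw [sum_congr rfl fun j _ => show 1 / 2 * (1 / 2 : ℝ) ^ j * (t0 * 2 ^ j) * 2 ^ j =
      t0 / 2 * 2 ^ j by linear_combination t0 / 2 * 2 ^ j * e1 j, ← mul_sum]
    have := mul_le_mul_of_nonneg_left (geo S).2 (show 0 ≤ b * t0 ^ 2 / 2 by positivity)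
    linarith

end MayX

theorem sMay : SMay := by
  intro c C ε A hc hC hε hε1 hA
  have hC0 : 0 < C := hc.trans_le hC
  obtain ⟨S, hS⟩ := exists_nat_ge (64 * A * C ^ 2 / (ε * c ^ 3) + 1)
  have hS0 : 0 < 64 * A * C ^ 2 / (ε * c ^ 3) := by positivity
  have hS1 : (1 : ℝ) ≤ S := by linarith
  have hS2 : 64 * A * C ^ 2 ≤ S * (ε * c ^ 3) := (div_le_iff₀ (by positivity)).1 (by linarith)
  obtain ⟨k, hk⟩ : ∃ k : ℕ, k = 2 ^ S + 2 := ⟨_, rfl⟩
  have hk1 : (2 : ℝ) ^ S + 2 = k := by rw [hk]; push_cast; ring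
  have hk2 : (0 : ℝ) < 2 ^ S := by positivity
  have hk0 : (0 : ℝ) < k := by linarith
  obtain ⟨β, hβ⟩ : ∃ β : ℝ, β = ε * c / (4 * C * S) := ⟨_, rfl⟩
  have hβ0 : 0 < β := by rw [hβ]; positivity
  have hβ1 : β * (4 * C * S) = ε * c := by rw [hβ]; field_simp
  have hβ2 : β ≤ 1 := by
    rw [hβ, div_le_one (by positivity)]
    nlinarith
  have hm := lt_min hc one_pos
  have hq : β / k / 8 ≤ 1 := by
    rw [div_div, div_le_one (by positivity)]
    linarith
  have hq0 : 0 < β / k / 8 := by positivity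
  have hτ : min c 1 * (β / k / 8) ≤ min c 1 := mul_le_of_le_one_right hm.le hq
  refine ⟨k, min c 1 * (β / k / 8), hk ▸ Nat.le_add_left _ _, by positivity, hτ.trans (min_le_left _ _),
    hτ.trans (min_le_right _ _), fun ι _ _ p w V D hp hV hD hG => ?_⟩
  have hD0 : (0 : ℝ) ≤ D := D.cast_nonneg
  obtain ⟨x, hx⟩ : ∃ x, x = β / k * D := ⟨_, rfl⟩
  have hx0 : 0 ≤ x := by rw [hx]; positivity
  have hx1 : min c 1 * (β / k / 8) * D = min c 1 * x / 8 := by rw [hx]; ring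
  have hx2 : k * x = β * D := by rw [hx]; field_simp
  rw [hx1] at hD hG
  have hx3 : min c 1 * x ≤ x := mul_le_of_le_one_left hx0 (min_le_right _ _)
  have hx4 : min c 1 * x ≤ c * x := mul_le_mul_of_nonneg_right (min_le_left _ _) hx0
  have ht1 := Nat.floor_le hx0
  have ht2 : x ≤ 2 * (⌊x⌋₊ : ℝ) := by linarith [Nat.lt_floor_add_one x]
  generalize ⌊x⌋₊ = t0 at ht1 ht2
  have ht0 : (0 : ℝ) ≤ t0 := t0.cast_nonneg
  have a1 : k * (t0 : ℝ) ≤ β * D := hx2 ▸ mul_le_mul_of_nonneg_left ht1 hk0.le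
  have a2 : β * D ≤ 2 * (k * (t0 : ℝ)) := by nlinarith
  have a3 : (t0 : ℝ) * 2 ^ S ≤ β * D := by nlinarith
  obtain ⟨g, g0, g1, g2, g3, g4, g5⟩ := MayX.moms w hp (S := S) (t0 := t0) (a := c * V)
    (b := C * V) (by exact_mod_cast hS1) (by positivity) fun j hj => by
      have h1 : (1 : ℝ) ≤ 2 ^ j := one_le_pow₀ one_le_two
      have h2 : (2 : ℝ) ^ j ≤ 2 ^ S := pow_le_pow_right₀ one_le_two hj.le
      have h3 : ((t0 * 2 ^ j : ℕ) : ℝ) ≤ D := by
        push_cast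
        nlinarith
      have := hG (t0 * 2 ^ j) (by push_cast; nlinarith) (by exact_mod_cast h3)
      push_cast at this
      exact this
  have b1 : k * (t0 : ℝ) * (4 * C * S) ≤ ε * c * D := by
    rw [← hβ1]
    exact (mul_le_mul_of_nonneg_right a1 (by positivity)).trans_eq (by ring)
  refine ⟨g, g0, le_trans ?_ g1, MayX.mom_mono w hp fun t => by nlinarith [g0 t], ?_, ?_, ?_⟩
  · rw [mul_right_comm, hx1]
    have : min c 1 * x ≤ 2 * c * t0 := by nlinarith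
    nlinarith
  · have h1 : ε * c * D ≤ 2 * (k * t0) * (4 * C * S) := by
      rw [← hβ1]
      exact (le_of_eq (by ring)).trans (mul_le_mul_of_nonneg_right a2 (by positivity))
    have h2 : 8 * A * C * D ≤ k * t0 * c ^ 2 * S ^ 2 := by
      refine le_of_mul_le_mul_left ?_ (show 0 < 8 * C by positivity)
      calc 8 * C * (8 * A * C * D) = 64 * A * C ^ 2 * D := by ring
        _ ≤ S * (ε * c ^ 3) * D := mul_le_mul_of_nonneg_right hS2 hD0
        _ = S * c ^ 2 * (ε * c * D) := by ring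
        _ ≤ S * c ^ 2 * (2 * (k * t0) * (4 * C * S)) :=
          mul_le_mul_of_nonneg_left h1 (by positivity)
        _ = _ := by ring
    calc _ ≤ A * V * D * (2 * (C * V) * t0) := mul_le_mul_of_nonneg_left g2 (by positivity)
      _ = V ^ 2 * t0 / 4 * (8 * A * C * D) := by ring
      _ ≤ V ^ 2 * t0 / 4 * (k * t0 * c ^ 2 * S ^ 2) := mul_le_mul_of_nonneg_left h2 (by positivity)
      _ = k * (c * V * t0 * S / 2) ^ 2 := by ring
      _ ≤ _ := mul_le_mul_of_nonneg_left (pow_le_pow_left₀ (by positivity) g3 2) hk0.le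
  · calc _ ≤ k * (S * (C * V) * (t0 : ℝ) ^ 2) := mul_le_mul_of_nonneg_left g4 hk0.le
      _ = V * t0 / 4 * (k * t0 * (4 * C * S)) := by ring
      _ ≤ V * t0 / 4 * (ε * c * D) := mul_le_mul_of_nonneg_left b1 (by positivity)
      _ = ε * D * (c * V * t0 / 4) := by ring
      _ ≤ _ := mul_le_mul_of_nonneg_left g1 (by positivity)
  · have h1 : t0 * 2 ^ S * C ≤ ε * c * D * S :=
      calc t0 * 2 ^ S * C ≤ β * D * (4 * C * S) :=
            mul_le_mul a3 (by nlinarith) hC0.le (by positivity)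
        _ = ε * c * D := by rw [← hβ1]; ring
        _ ≤ _ := le_mul_of_one_le_right (by positivity) hS1
    calc _ ≤ _ := g5
      _ = V * t0 / 2 * (t0 * 2 ^ S * C) := by ring
      _ ≤ V * t0 / 2 * (ε * c * D * S) := mul_le_mul_of_nonneg_left h1 (by positivity)
      _ = ε * D * (c * V * t0 * S / 2) := by ring
      _ ≤ _ := mul_le_mul_of_nonneg_left g3 (by positivity)

end Pool.Agent.PPf
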