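import Mathlib
import Pool.Agent.MP_f37147_nt.PP.Ker

/- Prime pairs: the true form against the ideal form. -/

set_option autoImplicit false

namespace Pool.Agent.PPf

open Finset
open scoped BigOperators

namespace ModelX

variable {κ : Type} [Fintype κ] [DecidableEq κ]

theorem sum_prod_ite (f g : κ → ℝ) :
    ∑ a : Finset κ, ∏ l, (if l ∈ a then f l else g l) = ∏ l, (f l + g l) := by
  rw [Fintype.prod_add]
  refine Finset.sum_congr rfl fun a _ => ?_
  rw [← Finset.prod_mul_prod_compl a]
  congr 1
  · exact Finset.prod_congr rfl fun l hl => if_pos hl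
  · exact Finset.prod_congr rfl fun l hl => if_neg (Finset.mem_compl.1 hl)

theorem idk_nonneg {p : ℝ} (hp : 1 < p) (J a a' : Finset κ) : 0 ≤ idk p J a a' := by
  have he : 0 ≤ 1 / (p - 1) := by
    have : 0 < p - 1 := by linarith
    positivity
  unfold idk
  refine Finset.prod_nonneg fun l _ => ?_
  split_ifs <;> positivity

theorem idk_empty (p : ℝ) (J : Finset κ) : idk p J ∅ ∅ = 1 := by
  unfold idk
  refine Finset.prod_eq_one fun l _ => ?_
  simp

theorem sum_idk (p : ℝ) (J : Finset κ) :
    ∑ a, ∑ a', idk p J a a' = (1 + 1 / (p - 1)) ^ (Fintype.card κ + J.card) := by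
  set e : ℝ := 1 / (p - 1) with he
  have h1 : ∀ a : Finset κ, ∑ a', idk p J a a' =
      ∏ l, (if l ∈ a then (if l ∈ J then e * (1 + e) else e)
        else (if l ∈ J then 1 + e else 1)) := by
    intro a
    have h2 : ∀ a' : Finset κ, idk p J a a' =
        ∏ l, (if l ∈ a' then
          (if l ∈ J then (if l ∈ a then e else 1) * e else if l ∈ a then e else 0)
          else (if l ∈ J then (if l ∈ a then e else 1) else if l ∈ a then 0 else 1)) := by
      intro a'
      unfold idk
      refine Finset.prod_congr rfl fun l _ => ?_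
      rw [← he]
      split_ifs <;> simp
    rw [Finset.sum_congr rfl fun a' _ => h2 a', sum_prod_ite]
    refine Finset.prod_congr rfl fun l _ => ?_
    split_ifs <;> ring
  rw [Finset.sum_congr rfl fun a _ => h1 a, sum_prod_ite]
  have h3 : ∀ l : κ, ((if l ∈ J then e * (1 + e) else e) + (if l ∈ J then 1 + e else 1)) =
      (1 + e) * (if l ∈ J then 1 + e else 1) := by
    intro l
    split_ifs <;> ring
  rw [Finset.prod_congr rfl fun l _ => h3 l, Finset.prod_mul_distrib, Finset.prod_const,
    Finset.card_univ, pow_add, Finset.prod_ite_mem, Finset.univ_inter, Finset.prod_const]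

end ModelX

open ModelX in
theorem sModel (h1 : SLoc) (h2 : SPert) : SModel := by
  intro ι κ _ _ _ _ p u J Y hp hY
  have hp1 : ∀ P, 1 < p P := fun P => by
    have := hp P
    have h0 : (0 : ℝ) ≤ Fintype.card κ := Nat.cast_nonneg _
    linarith
  have hb : (∏ P, ∑ a, ∑ a', idk (p P) J a a') =
      (∏ P, (1 + 1 / (p P - 1))) ^ (Fintype.card κ + J.card) := by
    rw [Finset.prod_congr rfl fun P _ => sum_idk (p P) J, Finset.prod_pow]
  constructor
  · intro hu
    classical
    have h := h2 ι κ (fun P => ker (p P) (u P) J)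
      (fun P => if |u P - 1| ≤ 20 / p P then idk (p P) J else ker (p P) (u P) J)
      (fun P => idk (p P) J) (fun P => (2 * Fintype.card κ + 100) / p P ^ 2) Y hY
      (fun P a a' => by
        by_cases hc : |u P - 1| ≤ 20 / p P
        · rw [if_pos hc]
          exact h1 κ (p P) (u P) J a a' (hp P) hc
        · rw [if_neg hc, sub_self, abs_zero]
          positivity)
      (fun P a a' => by
        by_cases hc : |u P - 1| ≤ 20 / p P
        · rw [if_pos hc]
          exact ⟨idk_nonneg (hp1 P) J a a', le_rfl⟩
        · rw [if_neg hc]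
          have hu0 : u P = 0 := (hu P).resolve_right hc
          unfold ker
          split_ifs with h3
          · rw [h3.1, h3.2, idk_empty]
            exact ⟨zero_le_one, le_rfl⟩
          · rw [hu0, zero_mul]
            exact ⟨le_rfl, idk_nonneg (hp1 P) J a a'⟩)
      (fun P => by
        by_cases hc : |u P - 1| ≤ 20 / p P
        · rw [if_pos hc, idk_empty]
        · rw [if_neg hc]
          unfold ker
          rw [if_pos ⟨rfl, rfl⟩])
    rw [hb] at h
    have h4 := (abs_le.1 h.1).2
    linarith [h.2]
  · intro hu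
    have h := h2 ι κ (fun P => ker (p P) (u P) J) (fun P => idk (p P) J)
      (fun P => idk (p P) J) (fun P => (2 * Fintype.card κ + 100) / p P ^ 2) Y hY
      (fun P a a' => h1 κ (p P) (u P) J a a' (hp P) (hu P))
      (fun P a a' => ⟨idk_nonneg (hp1 P) J a a', le_rfl⟩)
      (fun P => idk_empty (p P) J)
    rw [hb] at h
    have h4 := (abs_le.1 h.1).1
    linarith

end Pool.Agent.PPf
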