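import Pool.Agent.MP_f37147_nt.PP.Ker

/- Prime pairs: the four values of the form. -/

set_option autoImplicit false

namespace Pool.Agent.PPf

open Finset
open scoped BigOperators

namespace PackX

/-- The family of profiles. -/
noncomputable def gf {k : ℕ} (D : ℕ) (g : ℕ → ℝ) : Option (Fin k) → ℕ → ℝ
  | none => cut D
  | some _ => g

theorem cut_sq (D t : ℕ) : cut D t ^ 2 = cut D t := by
  unfold cut
  split_ifs <;> simp

theorem cut_mem (D t : ℕ) : 0 ≤ cut D t ∧ cut D t ≤ 1 := by
  unfold cut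
  split_ifs <;> simp

theorem gf_mem {k : ℕ} (D : ℕ) {g : ℕ → ℝ} (hg : ∀ t, 0 ≤ g t ∧ g t ≤ 1) (l : Option (Fin k))
    (t : ℕ) : 0 ≤ gf D g l t ∧ gf D g l t ≤ 1 := by
  cases l with
  | none => exact cut_mem D t
  | some i => exact hg t

section

variable {ι : Type} [Fintype ι] [DecidableEq ι]

theorem idv_eq (p : ι → ℝ) (w : ι → ℕ) {k : ℕ} (D : ℕ) (g : ℕ → ℝ)
    (hm : mom p w (fun t => g t ^ 2) ≠ 0) (J : Finset (Option (Fin k))) :
    idv p w (gf D g) J = (mom p w (cut D) * mom p w (fun t => g t ^ 2) ^ k) *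
      ((if none ∈ J then mom p w (cut D) else 1) *
        ∏ i : Fin k, if some i ∈ J then mom p w g ^ 2 / mom p w (fun t => g t ^ 2) else 1) := by
  unfold idv
  rw [Fintype.prod_option]
  have h1 : (if (none : Option (Fin k)) ∈ J then mom p w (gf D g (none : Option (Fin k))) ^ 2
      else mom p w fun t => gf D g (none : Option (Fin k)) t ^ 2) =
      mom p w (cut D) * (if none ∈ J then mom p w (cut D) else 1) := by
    have e : (fun t => gf D g (none : Option (Fin k)) t ^ 2) = cut D := by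
      funext t
      exact cut_sq D t
    rw [e]
    split_ifs
    · exact pow_two _
    · exact (mul_one _).symm
  have h2 : ∀ i : Fin k, (if some i ∈ J then mom p w (gf D g (some i)) ^ 2
      else mom p w fun t => gf D g (some i) t ^ 2) = mom p w (fun t => g t ^ 2) *
        (if some i ∈ J then mom p w g ^ 2 / mom p w (fun t => g t ^ 2) else 1) := by
    intro i
    split_ifs
    · exact (mul_div_cancel₀ _ hm).symm
    · exact (mul_one _).symm
  rw [h1, Finset.prod_congr rfl fun i _ => h2 i, Finset.prod_mul_distrib, Finset.prod_const,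
    Finset.card_univ, Fintype.card_fin]
  ring

theorem idv_empty (p : ι → ℝ) (w : ι → ℕ) {k : ℕ} (D : ℕ) (g : ℕ → ℝ)
    (hm : mom p w (fun t => g t ^ 2) ≠ 0) :
    idv p w (gf D g) (∅ : Finset (Option (Fin k))) =
      mom p w (cut D) * mom p w (fun t => g t ^ 2) ^ k := by
  rw [idv_eq p w D g hm]
  simp

theorem idv_none (p : ι → ℝ) (w : ι → ℕ) {k : ℕ} (D : ℕ) (g : ℕ → ℝ)
    (hm : mom p w (fun t => g t ^ 2) ≠ 0) :
    idv p w (gf D g) ({none} : Finset (Option (Fin k))) =
      mom p w (cut D) * mom p w (fun t => g t ^ 2) ^ k * mom p w (cut D) := by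
  rw [idv_eq p w D g hm]
  simp

theorem idv_one (p : ι → ℝ) (w : ι → ℕ) {k : ℕ} (D : ℕ) (g : ℕ → ℝ)
    (hm : mom p w (fun t => g t ^ 2) ≠ 0) (i : Fin k) :
    idv p w (gf D g) ({some i} : Finset (Option (Fin k))) =
      mom p w (cut D) * mom p w (fun t => g t ^ 2) ^ k *
        (mom p w g ^ 2 / mom p w (fun t => g t ^ 2)) := by
  rw [idv_eq p w D g hm]
  simp

theorem idv_two (p : ι → ℝ) (w : ι → ℕ) {k : ℕ} (D : ℕ) (g : ℕ → ℝ)
    (hm : mom p w (fun t => g t ^ 2) ≠ 0) (i j : Fin k) (hij : i ≠ j) :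
    idv p w (gf D g) ({some i, some j} : Finset (Option (Fin k))) =
      mom p w (cut D) * mom p w (fun t => g t ^ 2) ^ k *
        (mom p w g ^ 2 / mom p w (fun t => g t ^ 2)) ^ 2 := by
  rw [idv_eq p w D g hm]
  generalize mom p w g ^ 2 / mom p w (fun t => g t ^ 2) = r
  have h : ∀ l : Fin k, (if some l ∈ ({some i, some j} : Finset (Option (Fin k))) then r else 1) =
      (if l = i then r else 1) * (if l = j then r else 1) := by
    intro l
    by_cases h1 : l = i
    · subst h1
      simp [hij]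
    · by_cases h2 : l = j
      · subst h2
        simp [h1]
      · simp [h1, h2]
  rw [Finset.prod_congr rfl fun l _ => h l, Finset.prod_mul_distrib]
  simp [pow_two]

theorem YY_mem (w : ι → ℕ) {k : ℕ} (D : ℕ) {g : ℕ → ℝ} (hg : ∀ t, 0 ≤ g t ∧ g t ≤ 1)
    (T : Finset (Option (Fin k))) (A : ι → Finset (Option (Fin k))) :
    0 ≤ YY w (gf D g) T D A ∧ YY w (gf D g) T D A ≤ 1 := by
  unfold YY
  split_ifs
  · exact ⟨Finset.prod_nonneg fun l _ => (gf_mem D hg l _).1,
      Finset.prod_le_one (fun l _ => (gf_mem D hg l _).1) fun l _ => (gf_mem D hg l _).2⟩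
  · simp

theorem YY_supp (w : ι → ℕ) {k : ℕ} (D : ℕ) (g : ℕ → ℝ) (A : ι → Finset (Option (Fin k)))
    (h : YY w (gf D g) (univ.erase none) D A ≠ 0) : ∑ l, dg w A l ≤ 2 * D := by
  unfold YY at h
  split_ifs at h with h1
  · have h2 := Finset.prod_ne_zero_iff.1 h none (Finset.mem_univ _)
    have h3 : dg w A none ≤ D := by
      by_contra h4
      apply h2
      show cut D (dg w A none) = 0
      unfold cut
      rw [if_neg h4]
    rw [← Finset.add_sum_erase univ (dg w A) (Finset.mem_univ none)]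
    omega
  · exact absurd rfl h

end

/-- The error term of the model. -/
theorem err_le (B X L M ε S Q : ℝ) (K n : ℕ) (hB0 : 0 ≤ B) (hB : B ≤ L * X) (hL : 1 ≤ L)
    (hX : 1 ≤ X) (hn : n ≤ 2) (hM : X ^ (K + n) ≤ M) (hε : 0 < ε) (hQ : 0 < Q)
    (hS : S ≤ Q * (Real.log (1 + ε / (2 * L ^ (K + 2))) / Q)) :
    B ^ (K + n) * (Real.exp S - 1) ≤ ε / 2 * M := by
  have hLp : 0 < L ^ (K + 2) := by positivity
  have hδ : 0 < ε / (2 * L ^ (K + 2)) := by positivity
  have h1 : Real.exp S - 1 ≤ ε / (2 * L ^ (K + 2)) := by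
    rw [mul_div_cancel₀ _ hQ.ne'] at hS
    have h2 := Real.exp_le_exp.2 hS
    rw [Real.exp_log (by linarith)] at h2
    linarith
  have h3 : B ^ (K + n) ≤ L ^ (K + 2) * M := by
    calc B ^ (K + n) ≤ (L * X) ^ (K + n) := pow_le_pow_left₀ hB0 hB _
      _ = L ^ (K + n) * X ^ (K + n) := mul_pow _ _ _
      _ ≤ L ^ (K + 2) * M :=
        mul_le_mul (pow_le_pow_right₀ hL (by omega)) hM (by positivity) hLp.le
  have hM0 : 0 ≤ M := le_trans (by positivity) hM
  calc B ^ (K + n) * (Real.exp S - 1) ≤ B ^ (K + n) * (ε / (2 * L ^ (K + 2))) :=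
        mul_le_mul_of_nonneg_left h1 (by positivity)
    _ ≤ L ^ (K + 2) * M * (ε / (2 * L ^ (K + 2))) := mul_le_mul_of_nonneg_right h3 hδ.le
    _ = ε / 2 * M := by field_simp

/-- The lower bound for the ideal form with one removed root. -/
theorem ideal_low (h2 : SIdeal) {ι : Type} [Fintype ι] [DecidableEq ι] (p : ι → ℝ) (w : ι → ℕ)
    {k : ℕ} (D : ℕ) (g : ℕ → ℝ) (e : ℝ) (x : Option (Fin k)) (hk : 0 < k) (hD : 0 < D)
    (he : 0 ≤ e) (hp : ∀ P, 1 < p P) (hg : ∀ t, 0 ≤ g t ∧ g t ≤ 1) (hm1 : 0 ≤ mom p w g)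
    (hA : k * mom p w (fun t => g t ^ 2 * t) ≤ e * D * mom p w (fun t => g t ^ 2))
    (hB : mom p w (fun t => g t * t) ≤ e * D * mom p w g)
    (hI : 0 ≤ idv p w (gf D g) ({x} : Finset (Option (Fin k)))) :
    idv p w (gf D g) ({x} : Finset (Option (Fin k))) * (1 - 4 * e) ≤
      form (fun P => idk (p P) ({x} : Finset (Option (Fin k))))
        (YY w (gf D g) (univ.erase none) D) := by
  have hkR : (0 : ℝ) < k := by exact_mod_cast hk
  have hDR : (0 : ℝ) < D := by exact_mod_cast hD
  have h := (h2 ι (Option (Fin k)) p w (gf D g) {x} (univ.erase none) D hp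
    (fun l t => (gf_mem D hg l t).1)).2
    (fun l => (if l = x then e * D else 0) + e * D / k) hD ?_ ?_
  · refine le_trans (mul_le_mul_of_nonneg_left ?_ hI) h
    have hs : ∑ l ∈ (univ.erase none : Finset (Option (Fin k))),
        ((if l = x then e * D else 0) + e * D / k) ≤ 2 * (e * D) := by
      rw [Finset.sum_add_distrib, Finset.sum_ite_eq', Finset.sum_const,
        Finset.card_erase_of_mem (Finset.mem_univ _), Finset.card_univ, Fintype.card_option,
        Fintype.card_fin, Nat.add_sub_cancel, nsmul_eq_mul, mul_div_cancel₀ _ hkR.ne']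
      have : 0 ≤ e * D := by positivity
      split_ifs <;> linarith
    have h3 : 2 * (∑ l ∈ (univ.erase none : Finset (Option (Fin k))),
        ((if l = x then e * D else 0) + e * D / k)) / D ≤ 4 * e := by
      rw [div_le_iff₀ hDR]
      linarith
    linarith
  · intro l hl hJ
    cases l with
    | none => exact absurd hl (Finset.notMem_erase _ _)
    | some i =>
      have hx : some i = x := Finset.mem_singleton.1 hJ
      show mom p w (fun t => g t * t) ≤ ((if some i = x then e * D else 0) + e * D / k) * mom p w g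
      rw [if_pos hx]
      have : 0 ≤ e * D / k * mom p w g := by positivity
      linarith
  · intro l hl hJ
    cases l with
    | none => exact absurd hl (Finset.notMem_erase _ _)
    | some i =>
      have hx : ¬ some i = x := fun h => hJ (Finset.mem_singleton.2 h)
      show mom p w (fun t => g t ^ 2 * t) ≤
        ((if some i = x then e * D else 0) + e * D / k) * mom p w (fun t => g t ^ 2)
      rw [if_neg hx, zero_add, div_mul_eq_mul_div, le_div_iff₀ hkR]
      linarith

end PackX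

open PackX in
theorem sPack (h1 : SMay) (h2 : SIdeal) (h3 : SModel) : SPack := by
  intro c C ε A hc hcC hε hε1 hA
  obtain ⟨k, τ, hk, hτ, hτc, hτ1, hmay⟩ := h1 c C (ε / 8) A hc hcC (by positivity) (by linarith) hA
  have hL : 1 ≤ C / τ := by
    rw [le_div_iff₀ hτ]
    linarith
  have hQ : (0 : ℝ) < 4 ^ (k + 1) * (2 * ((k + 1 : ℕ) : ℝ) + 100) := by positivity
  have hlog : 0 < Real.log (1 + ε / (2 * (C / τ) ^ (k + 1 + 2))) := by
    apply Real.log_pos
    have : 0 < ε / (2 * (C / τ) ^ (k + 1 + 2)) := by positivity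
    linarith
  refine ⟨k, τ, Real.log (1 + ε / (2 * (C / τ) ^ (k + 1 + 2))) /
    (4 ^ (k + 1) * (2 * ((k + 1 : ℕ) : ℝ) + 100)), hk, hτ, hτ1, div_pos hlog hQ, ?_⟩
  intro ι _ _ p w V D hp hV hV1 hX hcut hB hη
  have hk0 : (0 : ℝ) ≤ k := Nat.cast_nonneg k
  have hp1 : ∀ P, 1 < p P := fun P => by linarith [hp P]
  have hD0 : (0 : ℝ) ≤ D := Nat.cast_nonneg D
  have hτD : 1 ≤ τ * D := by
    have : τ * V * D ≤ τ * 1 * D := by gcongr
    linarith
  have hD : 0 < D := by
    rcases Nat.eq_zero_or_pos D with h | h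
    · subst h
      simp at hτD
      linarith
    · exact h
  obtain ⟨g, hg, hm2, hm21, hAk, hg2, hg1⟩ := hmay ι p w V D hp1 hV hτD hcut
  have hs : c * V * D ≤ mom p w (cut D) :=
    (hcut D (by nlinarith) le_rfl).1
  have hcard : Fintype.card (Option (Fin k)) = k + 1 := by simp
  have hpK : ∀ P, (Fintype.card (Option (Fin k)) : ℝ) + 4 ≤ p P := by
    intro P
    rw [hcard]
    push_cast
    linarith [hp P]
  have hB0 : 0 ≤ ∏ P, (1 + 1 / (p P - 1)) := by
    refine Finset.prod_nonneg fun P _ => ?_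
    have : 0 < p P - 1 := by linarith [hp1 P]
    positivity
  have hBL : ∏ P, (1 + 1 / (p P - 1)) ≤ C / τ * (τ * V * D) := by
    have : C / τ * (τ * V * D) = C * V * D := by field_simp
    linarith
  have hS : (4 : ℝ) ^ (k + 1) * ∑ P, (2 * ((k + 1 : ℕ) : ℝ) + 100) / p P ^ 2 ≤
      4 ^ (k + 1) * (2 * ((k + 1 : ℕ) : ℝ) + 100) *
        (Real.log (1 + ε / (2 * (C / τ) ^ (k + 1 + 2))) /
          (4 ^ (k + 1) * (2 * ((k + 1 : ℕ) : ℝ) + 100))) := by
    have e : ∑ P, (2 * ((k + 1 : ℕ) : ℝ) + 100) / p P ^ 2 =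
        (2 * ((k + 1 : ℕ) : ℝ) + 100) * ∑ P, 1 / p P ^ 2 := by
      rw [Finset.mul_sum]
      exact Finset.sum_congr rfl fun P _ => (mul_one_div _ _).symm
    rw [e, ← mul_assoc]
    exact mul_le_mul_of_nonneg_left hη hQ.le
  have herr : ∀ (J : Finset (Option (Fin k))) (M : ℝ), J.card ≤ 2 →
      (τ * V * D) ^ (k + 1 + J.card) ≤ M →
      (∏ P, (1 + 1 / (p P - 1))) ^ (Fintype.card (Option (Fin k)) + J.card) *
        (Real.exp (4 ^ Fintype.card (Option (Fin k)) *
          ∑ P, (2 * (Fintype.card (Option (Fin k)) : ℝ) + 100) / p P ^ 2) - 1) ≤ ε / 2 * M := by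
    intro J M hJ hM
    rw [hcard]
    exact err_le _ _ _ _ _ _ _ _ _ hB0 hBL hL hX hJ hM hε hQ hS
  have hY := YY_mem w D hg (univ.erase (none : Option (Fin k)))
  have hup := fun J => (h2 ι (Option (Fin k)) p w (gf D g) J (univ.erase none) D hp1
    (fun l t => (gf_mem D hg l t).1)).1
  have hmod := fun u J => h3 ι (Option (Fin k)) p u J _ hpK hY
  have hm20 : 0 < mom p w (fun t => g t ^ 2) := by linarith
  have hm10 : 0 < mom p w g := by linarith
  have hlow := fun x : Option (Fin k) => ideal_low h2 p w D g (ε / 8) x (by omega) hD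
    (by positivity) hp1 hg hm10.le hg2 hg1
  have e0 := idv_empty p w (k := k) D g hm20.ne'
  have en := idv_none p w (k := k) D g hm20.ne'
  have e1 := idv_one p w (k := k) D g hm20.ne'
  have e2 := idv_two p w (k := k) D g hm20.ne'
  have hAr : A * V * D ≤ k * (mom p w g ^ 2 / mom p w (fun t => g t ^ 2)) := by
    rw [← mul_div_assoc, le_div_iff₀ hm20]
    exact hAk
  have hr : τ * V * D ≤ mom p w g ^ 2 / mom p w (fun t => g t ^ 2) := by
    rw [le_div_iff₀ hm20, pow_two]
    exact mul_le_mul (hm2.trans hm21) hm21 hm20.le hm10.le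
  have hsX : τ * V * D ≤ mom p w (cut D) := by
    have : τ * V * D ≤ c * V * D := by gcongr
    linarith
  have hX0 : 0 ≤ τ * V * D := by linarith
  have hP : (τ * V * D) ^ (k + 1) ≤ mom p w (cut D) * mom p w (fun t => g t ^ 2) ^ k := by
    rw [pow_succ']
    exact mul_le_mul hsX (pow_le_pow_left₀ hX0 hm2 k) (by positivity) (by linarith)
  have hsupp := YY_supp w (k := k) D g
  generalize mom p w g ^ 2 / mom p w (fun t => g t ^ 2) = r at e1 e2 hAr hr
  generalize mom p w (cut D) * mom p w (fun t => g t ^ 2) ^ k = P₀ at e0 en e1 e2 hP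
  generalize mom p w (cut D) = s at en hs hsX
  have hP1 : 1 ≤ P₀ := (one_le_pow₀ hX).trans hP
  have hP0 : 0 ≤ P₀ := by linarith
  refine ⟨YY w (gf D g) (univ.erase none) D, P₀, r, s, hY, hsupp, hP1, by linarith, by linarith,
    hAr, hs, ?_, ?_, ?_, ?_⟩
  · intro u hu
    have a1 := (hmod u ∅).1 hu
    have a2 := hup ∅
    have a3 := herr ∅ P₀ (by simp) (by simpa using hP)
    rw [e0] at a2
    have : 0 ≤ ε * P₀ := by positivity
    linarith
  · intro i u hu
    have a1 := (hmod u {some i}).2 hu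
    have hM : (τ * V * D) ^ (k + 1 + ({some i} : Finset (Option (Fin k))).card) ≤ P₀ * r := by
      rw [Finset.card_singleton, pow_succ]
      exact mul_le_mul hP hr hX0 hP0
    have a3 := herr {some i} (P₀ * r) (by simp) hM
    have a2 := hlow (some i) (by rw [e1]; exact mul_nonneg hP0 (by linarith))
    rw [e1] at a2
    linarith
  · intro i j u hij hu
    have a1 := (hmod u {some i, some j}).1 hu
    have a2 := hup {some i, some j}
    have hc2 : ({some i, some j} : Finset (Option (Fin k))).card = 2 :=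
      Finset.card_pair fun h => hij (Option.some.inj h)
    have hM : (τ * V * D) ^ (k + 1 + ({some i, some j} : Finset (Option (Fin k))).card) ≤
        P₀ * r ^ 2 := by
      rw [hc2, pow_add]
      exact mul_le_mul hP (pow_le_pow_left₀ hX0 hr 2) (by positivity) hP0
    have a3 := herr {some i, some j} (P₀ * r ^ 2) hc2.le hM
    rw [e2 i j hij] at a2
    have : 0 ≤ ε * (P₀ * r ^ 2) := by positivity
    linarith
  · intro u hu
    have a1 := (hmod u {none}).2 hu
    have hM : (τ * V * D) ^ (k + 1 + ({none} : Finset (Option (Fin k))).card) ≤ P₀ * s := by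
      rw [Finset.card_singleton, pow_succ]
      exact mul_le_mul hP hsX hX0 hP0
    have a3 := herr {none} (P₀ * s) (by simp) hM
    have a2 := hlow none (by rw [en]; exact mul_nonneg hP0 (by linarith))
    rw [en] at a2
    linarith

end Pool.Agent.PPf
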